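import Pool.Agent.Lib.Npz.One

/-!
# Convergence for blocks in separate variables
-/

set_option autoImplicit false
set_option linter.unusedSectionVars false

open Finset MeasureTheory Filter Topology
open scoped ENNReal NNReal

namespace Pool.Agent.Lib.Npz

open Pool.Agent.Lib.Pf720ae
open Pool.Agent.Lib.Pf720nn (CvL2 PolG pS pS_congr pS_mp pS_comm_act pS_comm_max maxBd_mul maxBd_id
  cvL2_mul cvL2_id prod_split shQ Sep)
open Pool.Agent.Lib.Pf720mp (poly_L2_mp)

/-- consecutive blocks with disjoint sets of variables; in each block either the maps commute, or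
they generate a nilpotent group and the polynomials depend on at most one common variable -/
def SepN {X : Type} {d k : ℕ} (T : Fin d → Equiv.Perm X) (P : Fin d → MvPolynomial (Fin k) ℤ) :
    Prop :=
  ∃ β : Fin d → ℕ, Monotone β ∧ (∀ i i', β i ≠ β i' → Disjoint (P i).vars (P i').vars) ∧
    ∀ b, (∀ i i', β i = b → β i' = b → P i ≠ 0 → P i' ≠ 0 → T i * T i' = T i' * T i) ∨
      (Group.IsNilpotent (Subgroup.closure {g | ∃ i, β i = b ∧ P i ≠ 0 ∧ T i = g}) ∧
        ∀ i i', β i = b → β i' = b → ∀ l ∈ (P i).vars, ∀ l' ∈ (P i').vars, l = l')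

lemma nilpotent_of_le {G : Type} [Group G] {H K : Subgroup G} (h : H ≤ K)
    (hK : Group.IsNilpotent K) : Group.IsNilpotent H := by
  refine Subgroup.isNilpotent_of_ker_le_center (Subgroup.inclusion h) ?_
  rw [(MonoidHom.ker_eq_bot_iff _).2 (Subgroup.inclusion_injective h)]
  exact bot_le

section seps

variable {X : Type} {d : ℕ} (T : Fin d → Equiv.Perm X)

/-- induction over the blocks -/
theorem block_induction' {k : ℕ} (C : ((Fin k → ℕ) → X → X) → Prop)
    (hid : C fun _ x => x)
    (hmul : ∀ (P P' : Fin d → MvPolynomial (Fin k) ℤ) (vis : Fin k → Prop),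
      C (pS T P) → C (pS T P') →
      (∀ m m' : Fin k → ℕ, (∀ l, vis l → m l = m' l) → pS T P m = pS T P m') →
      (∀ m m' : Fin k → ℕ, (∀ l, ¬ vis l → m l = m' l) → pS T P' m = pS T P' m') →
      C fun m x => pS T P m (pS T P' m x))
    (P : Fin d → MvPolynomial (Fin k) ℤ) (β : Fin d → ℕ) (hβ : Monotone β)
    (hdis : ∀ i i', β i ≠ β i' → Disjoint (P i).vars (P i').vars)
    (hblock : ∀ b, C (pS T fun i => if β i = b then P i else 0)) : C (pS T P) := by
  classical
  have key : ∀ b : ℕ, C (pS T fun i => if β i < b then P i else 0) := by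
    intro b
    induction b with
    | zero =>
      have e : (pS T fun i => if β i < 0 then P i else 0) = fun _ x => x := by
        funext m x
        unfold pS
        simp only [Nat.not_lt_zero, if_false, map_zero]
        have : (fun _ : Fin d => (0 : ℤ)) = 0 := rfl
        rw [this, @pw_zero X ⊤ d T]
        rfl
      rw [e]
      exact hid
    | succ b ih =>
      have hv1 : ∀ m m' : Fin k → ℕ, (∀ l, (∃ i, β i < b ∧ l ∈ (P i).vars) → m l = m' l) →
          pS T (fun i => if β i < b then P i else 0) m =
            pS T (fun i => if β i < b then P i else 0) m' := by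
        intro m m' h
        refine pS_congr T _ fun i l hl => ?_
        by_cases hi : β i < b
        · rw [if_pos hi] at hl
          exact h l ⟨i, hi, hl⟩
        · rw [if_neg hi, MvPolynomial.vars_0] at hl
          exact absurd hl (Finset.notMem_empty l)
      have hv2 : ∀ m m' : Fin k → ℕ, (∀ l, ¬ (∃ i, β i < b ∧ l ∈ (P i).vars) → m l = m' l) →
          pS T (fun i => if β i = b then P i else 0) m =
            pS T (fun i => if β i = b then P i else 0) m' := by
        intro m m' h
        refine pS_congr T _ fun i l hl => ?_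
        by_cases hi : β i = b
        · rw [if_pos hi] at hl
          refine h l ?_
          rintro ⟨i', hi', hl'⟩
          exact (Finset.disjoint_left.1 (hdis i i' (by omega))) hl hl'
        · rw [if_neg hi, MvPolynomial.vars_0] at hl
          exact absurd hl (Finset.notMem_empty l)
      have e : (pS T fun i => if β i < b + 1 then P i else 0) =
          fun (m : Fin k → ℕ) x => pS T (fun i => if β i < b then P i else 0) m
            (pS T (fun i => if β i = b then P i else 0) m x) := by
        funext m x
        have e1 : pw T (fun i => MvPolynomial.eval (fun l => (((m + 1) l : ℕ) : ℤ))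
              (if β i < b + 1 then P i else 0)) =
            pw T (fun i => MvPolynomial.eval (fun l => (((m + 1) l : ℕ) : ℤ))
              (if β i < b then P i else 0)) *
            pw T (fun i => MvPolynomial.eval (fun l => (((m + 1) l : ℕ) : ℤ))
              (if β i = b then P i else 0)) := by
          unfold pw
          rw [prod_split β hβ b]
          congr 3
          · funext i
            beta_reduce
            by_cases h : β i < b
            · rw [if_pos h, if_pos h, if_pos (by omega)]
            · rw [if_neg h, if_neg h, map_zero, zpow_zero]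
          · funext i
            beta_reduce
            by_cases h : β i < b
            · rw [if_pos h, if_neg (by omega), map_zero, zpow_zero]
            · rw [if_neg h]
              by_cases h' : β i = b
              · rw [if_pos h', if_pos (by omega)]
              · rw [if_neg h', if_neg (by omega)]
        unfold pS
        rw [e1]
        rfl
      rw [e]
      exact hmul _ _ _ ih (hblock b) hv1 hv2
  have h := key ((∑ i, β i) + 1)
  have e : (fun i => if β i < (∑ i, β i) + 1 then P i else 0) = P := by
    funext i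
    have : β i ≤ ∑ i, β i := Finset.single_le_sum (f := β) (fun _ _ => Nat.zero_le _)
      (Finset.mem_univ i)
    rw [if_pos (by omega)]
  rw [e] at h
  exact h

variable {mX : MeasurableSpace X} {μ : Measure X} [IsProbabilityMeasure μ]

/-- the maximal inequality and pointwise convergence for separated tuples -/
theorem pS_sepN (hT : ∀ i, Measurable (T i) ∧ Measurable (T i).symm ∧ MeasurePreserving (T i) μ μ)
    {k : ℕ} (P : Fin d → MvPolynomial (Fin k) ℤ) (hP : SepN T P) :
    MaxBd μ (pS T P) ∧ CvL2 μ (pS T P) := by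
  classical
  obtain ⟨β, hβ, hdis, hb⟩ := hP
  refine block_induction' T (fun U => MaxBd μ U ∧ CvL2 μ U) ⟨maxBd_id, cvL2_id⟩
    (fun P P' vis h h' hv hv' =>
      ⟨maxBd_mul h.1 h'.1 (fun m => (pS_mp T hT _ m).measurable) vis hv hv',
        cvL2_mul h.2 h'.2 h.1 h'.1 (pS_mp T hT _) (pS_mp T hT _) vis hv hv'⟩) P β hβ hdis
    fun b => ?_
  rcases hb b with hc | ⟨hN, hv⟩
  · have hc' : ∀ i i', (if β i = b then P i else 0) ≠ 0 → (if β i' = b then P i' else 0) ≠ 0 →
        T i * T i' = T i' * T i := by
      intro i i' hi hi'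
      by_cases h : β i = b
      · by_cases h' : β i' = b
        · rw [if_pos h] at hi
          rw [if_pos h'] at hi'
          exact hc i i' h h' hi hi'
        · exact absurd (if_neg h') hi'
      · exact absurd (if_neg h) hi
    refine ⟨pS_comm_max T hT _ hc', fun φ hφ => ?_⟩
    obtain ⟨act, hadd, hmp, e⟩ := pS_comm_act T hT _ hc'
    rw [e]
    exact poly_L2_mp (act := act) hadd hmp _ hφ
  · obtain ⟨T', hT'⟩ : ∃ T' : Fin d → Equiv.Perm X, T' = fun i =>
        if β i = b ∧ P i ≠ 0 then T i else 1 := ⟨_, rfl⟩
    have e : pS T (fun i => if β i = b then P i else 0) =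
        pS T' (fun i => if β i = b then P i else 0) := by
      funext m
      unfold pS pw
      congr 3
      funext i
      rw [hT']
      beta_reduce
      by_cases h : β i = b
      · by_cases h' : P i = 0
        · rw [if_pos h, h', map_zero, zpow_zero, zpow_zero]
        · rw [if_pos (And.intro h h')]
      · rw [if_neg h, map_zero, zpow_zero, zpow_zero]
    rw [e]
    refine pS_one T' (fun i => ?_) ?_ _ ?_
    · rw [hT']
      beta_reduce
      split_ifs
      · exact hT i
      · exact ⟨measurable_id, measurable_id, MeasurePreserving.id μ⟩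
    · refine nilpotent_of_le ?_ hN
      rw [Subgroup.closure_le]
      rintro _ ⟨i, rfl⟩
      rw [hT']
      beta_reduce
      split_ifs with h
      · exact Subgroup.subset_closure ⟨i, h.1, h.2, rfl⟩
      · exact Subgroup.one_mem _
    · intro i i' l hl l' hl'
      by_cases h : β i = b
      · by_cases h' : β i' = b
        · rw [if_pos h] at hl
          rw [if_pos h'] at hl'
          exact hv i i' h h' l hl l' hl'
        · rw [if_neg h', MvPolynomial.vars_0] at hl'
          exact absurd hl' (Finset.notMem_empty l')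
      · rw [if_neg h, MvPolynomial.vars_0] at hl
        exact absurd hl (Finset.notMem_empty l)

/-- from real to complex functions and to sums over `[1, M_l]` -/
theorem conv_of_cvL2 {k : ℕ} (P : Fin d → MvPolynomial (Fin k) ℤ) (h : CvL2 μ (pS T P))
    {f : X → ℂ} (hf : MemLp f 2 μ) :
    ∀ᵐ x ∂μ, ∃ L : ℂ, Tendsto (fun M : Fin k → ℕ => (∏ l, (M l : ℂ))⁻¹ *
      ∑ m ∈ Fintype.piFinset (fun l => Finset.Icc 1 (M l)),
        f (pw T (fun i => MvPolynomial.eval (fun l => (m l : ℤ)) (P i)) x)) atTop (𝓝 L) := by
  filter_upwards [h _ hf.re, h _ hf.im] with x h1 h2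
  obtain ⟨a, ha⟩ := h1
  obtain ⟨b, hb⟩ := h2
  refine ⟨(a : ℂ) + (b : ℂ) * Complex.I, ?_⟩
  have ha' := (Complex.continuous_ofReal.tendsto a).comp ha
  have hb' := ((Complex.continuous_ofReal.tendsto b).comp hb).mul_const Complex.I
  refine (ha'.add hb').congr fun M => ?_
  rw [sum_Icc_eq]
  simp only [Function.comp, avg, Pool.Agent.Lib.Pf720ae.box, pS]
  push_cast
  rw [mul_assoc, ← mul_add, Finset.sum_mul, ← Finset.sum_add_distrib]
  congr 1
  refine Finset.sum_congr rfl fun m _ => ?_
  exact Complex.re_add_im _

/-- the multi-parameter polynomial ergodic theorem for separated tuples -/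
theorem conv_sepN (hT : ∀ i, Measurable (T i) ∧ Measurable (T i).symm ∧
      MeasurePreserving (T i) μ μ) {k : ℕ} (P : Fin d → MvPolynomial (Fin k) ℤ) (hP : SepN T P)
    {f : X → ℂ} (hf : MemLp f 2 μ) :
    ∀ᵐ x ∂μ, ∃ L : ℂ, Tendsto (fun M : Fin k → ℕ => (∏ l, (M l : ℂ))⁻¹ *
      ∑ m ∈ Fintype.piFinset (fun l => Finset.Icc 1 (M l)),
        f (pw T (fun i => MvPolynomial.eval (fun l => (m l : ℤ)) (P i)) x)) atTop (𝓝 L) :=
  conv_of_cvL2 T P (pS_sepN T hT P hP).2 hf

/-- cubes -/
theorem conv_cubes (hT : ∀ i, Measurable (T i) ∧ Measurable (T i).symm ∧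
      MeasurePreserving (T i) μ μ) (hG : Group.IsNilpotent (Subgroup.closure (Set.range T)))
    {k : ℕ} (P : Fin d → MvPolynomial (Fin k) ℤ) {f : X → ℂ} (hf : MemLp f 2 μ) :
    ∀ᵐ x ∂μ, ∃ L : ℂ, Tendsto (fun M : ℕ => ((M : ℂ) ^ k)⁻¹ *
      ∑ m ∈ Fintype.piFinset (fun _ : Fin k => Finset.Icc 1 M),
        f (pw T (fun i => MvPolynomial.eval (fun l => (m l : ℤ)) (P i)) x)) atTop (𝓝 L) := by
  filter_upwards [(words T hT hG (polG_ww T P)).1 f hf] with x hx
  obtain ⟨a, ha⟩ := hx
  refine ⟨a, ha.congr fun M => ?_⟩
  rw [sum_Icc_eq (fun _ => M)]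
  congr 1
  refine Finset.sum_congr rfl fun m _ => ?_
  rw [coe_ww]
  rfl

end seps

end Pool.Agent.Lib.Npz
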