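import Pool.Agent.Lib.Npm.Main7
import Pool.Agent.Lib.Npa.ToNpw
import Pool.Agent.Lib.Pf720nn.BlkA
import Pool.Agent.Lib.Pf720nn.PPow
import Pool.Agent.Lib.Pf720np.Final

/-!
# Pointwise convergence along polynomial words in nilpotent groups, cubes
-/

set_option autoImplicit false
set_option linter.unusedSectionVars false

open Finset MeasureTheory Filter Topology
open scoped ENNReal NNReal

namespace Pool.Agent.Lib.Npz

open Pool.Agent.Lib.Npw (Dat)
open Pool.Agent.Lib.Npm (npw_conv npw_max)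
open Pool.Agent.Lib.Pf720ae (pw mp_pw)
open Pool.Agent.Lib.Pf720np (gw gens coe_gw pact_mp)
open Pool.Agent.Lib.Pf720nn (PolF PolG lc lc_anti lc_comm polF_word pS eval_shQ shQ)

section alg

variable {κ G : Type} [Group G]

/-- constant maps are polynomial -/
theorem polG_const (g : G) : PolG fun _ : κ → ℕ => g := by
  refine ⟨1, Nat.one_pos, fun hs m => ?_⟩
  cases hs with
  | nil => simp [lc]
  | cons h hs =>
    rw [Pool.Agent.Lib.Pf720nn.dgs_cons]
    have e : Pool.Agent.Lib.Pf720nn.dg h (fun _ : κ → ℕ => g) = fun _ => (1 : G) := by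
      funext n
      simp [Pool.Agent.Lib.Pf720nn.dg]
    rw [e]
    exact (bot_le : (⊥ : Subgroup G) ≤ _)
      (Pool.Agent.Lib.Pf720nn.dgs_mem (fun _ => Subgroup.one_mem _) hs m)

theorem polG_mul {w v : (κ → ℕ) → G} (hw : PolG w) (hv : PolG v) : PolG fun m => w m * v m := by
  obtain ⟨e, he, hw⟩ := hw
  obtain ⟨e', he', hv⟩ := hv
  refine ⟨max e e', lt_max_of_lt_left he, ?_⟩
  exact Pool.Agent.Lib.Pf720nn.PolF.mul (lc_anti _) (lc_comm (lt_max_of_lt_left he))
    (hw.mono fun i => Pool.Agent.Lib.Pf720nn.lc_le i he (le_max_left e e'))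
    (hv.mono fun i => Pool.Agent.Lib.Pf720nn.lc_le i he' (le_max_right e e'))

theorem polG_inv {w : (κ → ℕ) → G} (hw : PolG w) : PolG fun m => (w m)⁻¹ := by
  obtain ⟨e, he, hw⟩ := hw
  exact ⟨e, he, Pool.Agent.Lib.Pf720nn.PolF.inv (lc_anti _) (lc_comm he) hw⟩

end alg

variable {X : Type} {mX : MeasurableSpace X} {μ : Measure X} [IsProbabilityMeasure μ] {d : ℕ}
  (T : Fin d → Equiv.Perm X)

/-- the word in the generated group -/
noncomputable def ww {k : ℕ} (P : Fin d → MvPolynomial (Fin k) ℤ) (m : Fin k → ℕ) :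
    Subgroup.closure (Set.range T) :=
  gw (gens T) fun i => MvPolynomial.eval (fun l => (((m + 1) l : ℕ) : ℤ)) (P i)

theorem coe_ww {k : ℕ} (P : Fin d → MvPolynomial (Fin k) ℤ) (m : Fin k → ℕ) (x : X) :
    ((ww T P m : Subgroup.closure (Set.range T)) : Equiv.Perm X) x = pS T P m x := by
  unfold ww
  rw [coe_gw]
  rfl

theorem polG_ww {k : ℕ} (P : Fin d → MvPolynomial (Fin k) ℤ) : PolG (ww T P) := by
  have h1 : PolG fun m : Fin k → ℕ => gw (gens T) fun i =>
      MvPolynomial.eval (fun l => (m l : ℤ)) (shQ (P i)) := by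
    refine ⟨(∑ i, (shQ (P i)).totalDegree) + 1, Nat.succ_pos _, ?_⟩
    refine polF_word (gens T) (fun i => shQ (P i)) (Nat.succ_pos _) fun i => ?_
    exact (Finset.single_le_sum (f := fun i => (shQ (P i)).totalDegree)
      (fun _ _ => Nat.zero_le _) (Finset.mem_univ i)).trans (Nat.le_succ _)
  have e : ww T P = fun m : Fin k → ℕ => gw (gens T) fun i =>
      MvPolynomial.eval (fun l => (m l : ℤ)) (shQ (P i)) := by
    funext m
    unfold ww
    congr 1
    funext i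
    rw [eval_shQ]
  rw [e]
  exact h1

/-- the pointwise ergodic theorem and the maximal inequality for a polynomial map into a finitely
generated nilpotent group acting by measure preserving maps -/
theorem words' {G : Type} [Group G] (hFG : Group.FG G) (hN : Group.IsNilpotent G)
    (W : G →* Equiv.Perm X) (hW : ∀ g, Measurable (W g) ∧ MeasurePreserving (W g) μ μ) {k : ℕ}
    {w : (Fin k → ℕ) → G} (hw : PolG w) :
    (∀ f : X → ℂ, MemLp f 2 μ → ∀ᵐ x ∂μ, ∃ a : ℂ, Tendsto (fun M : ℕ => ((M : ℂ) ^ k)⁻¹ *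
      ∑ v ∈ Fintype.piFinset (fun _ : Fin k => range M), f (W (w v) x)) atTop (𝓝 a)) ∧
    ∃ C : ℝ≥0, ∀ f : X → ℝ≥0∞, Measurable f →
      ∫⁻ x, (⨆ M : ℕ, ((M : ℝ≥0∞) ^ k)⁻¹ *
        ∑ v ∈ Fintype.piFinset (fun _ : Fin k => range M), f (W (w v) x)) ^ 2 ∂μ ≤
        C * ∫⁻ x, (f x) ^ 2 ∂μ := by
  have hSP : PolG fun v => w 0 * (w v)⁻¹ := polG_mul (polG_const _) (polG_inv hw)
  have hS0 : (fun v => w 0 * (w v)⁻¹) 0 = 1 := mul_inv_cancel _
  obtain ⟨J, D, ρ, C1, z, lv, co, cl, hA⟩ := Pool.Agent.Lib.Npa.exists_dat hFG hS0 hSP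
  have e : ∀ (v : Fin k → ℕ) (x : X), W (w 0 * (w v)⁻¹)⁻¹ (W (w 0) x) = W (w v) x := by
    intro v x
    have h1 : (w 0 * (w v)⁻¹)⁻¹ * w 0 = w v := by simp
    calc W (w 0 * (w v)⁻¹)⁻¹ (W (w 0) x)
        = W ((w 0 * (w v)⁻¹)⁻¹ * w 0) x := by rw [map_mul]; rfl
      _ = W (w v) x := by rw [h1]
  have hq := (hW (w 0)).2
  constructor
  · intro f hf
    have h1 := hq.quasiMeasurePreserving.ae (npw_conv (μ := μ) W hW hA hf)
    filter_upwards [h1] with x hx
    obtain ⟨a, ha⟩ := hx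
    refine ⟨a, ha.congr fun M => ?_⟩
    show ((M : ℂ) ^ k)⁻¹ * ∑ v ∈ Fintype.piFinset (fun _ : Fin k => range M),
      f (W (w 0 * (w v)⁻¹)⁻¹ (W (w 0) x)) = _
    simp only [e]
  · obtain ⟨C, hC⟩ := npw_max (μ := μ) W hW hA
    refine ⟨C, fun f hf => ?_⟩
    have hmeas : Measurable fun x => (⨆ M : ℕ, ((M : ℝ≥0∞) ^ k)⁻¹ *
        ∑ v ∈ Fintype.piFinset (fun _ : Fin k => range M),
          f (W (w 0 * (w v)⁻¹)⁻¹ x)) ^ 2 :=
      (Measurable.iSup fun M => (Finset.measurable_fun_sum _ fun v _ =>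
        hf.comp (hW _).1).const_mul _).pow_const 2
    have h1 := hC f hf
    have h2 := hq.lintegral_comp hmeas
    refine le_trans (le_of_eq ?_) h1
    refine Eq.trans ?_ h2
    refine lintegral_congr fun x => ?_
    simp only [e]

/-- the pointwise ergodic theorem and the maximal inequality for a polynomial map into the
generated group -/
theorem words (hT : ∀ i, Measurable (T i) ∧ Measurable (T i).symm ∧ MeasurePreserving (T i) μ μ)
    (hG : Group.IsNilpotent (Subgroup.closure (Set.range T))) {k : ℕ}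
    {w : (Fin k → ℕ) → Subgroup.closure (Set.range T)} (hw : PolG w) :
    (∀ f : X → ℂ, MemLp f 2 μ → ∀ᵐ x ∂μ, ∃ a : ℂ, Tendsto (fun M : ℕ => ((M : ℂ) ^ k)⁻¹ *
      ∑ v ∈ Fintype.piFinset (fun _ : Fin k => range M), f ((w v : Equiv.Perm X) x))
      atTop (𝓝 a)) ∧
    ∃ C : ℝ≥0, ∀ f : X → ℝ≥0∞, Measurable f →
      ∫⁻ x, (⨆ M : ℕ, ((M : ℝ≥0∞) ^ k)⁻¹ *
        ∑ v ∈ Fintype.piFinset (fun _ : Fin k => range M), f ((w v : Equiv.Perm X) x)) ^ 2 ∂μ ≤
        C * ∫⁻ x, (f x) ^ 2 ∂μ := by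
  have hFG : Group.FG (Subgroup.closure (Set.range T)) := by
    rw [Group.fg_iff_subgroup_fg]
    exact (Subgroup.fg_iff _).2 ⟨Set.range T, rfl, Set.finite_range T⟩
  exact words' hFG hG (Subgroup.closure (Set.range T)).subtype
    (fun g => ⟨(pact_mp T hT g).measurable, pact_mp T hT g⟩) hw

end Pool.Agent.Lib.Npz
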