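import Pool.Agent.Lib.Npz.Asm
import Pool.Agent.Lib.Pf720nn.Blk

/-!
# Blocks in one variable
-/

set_option autoImplicit false
set_option linter.unusedSectionVars false

open Finset MeasureTheory Filter Topology
open scoped ENNReal NNReal

namespace Pool.Agent.Lib.Npz

open Pool.Agent.Lib.Pf720ae
open Pool.Agent.Lib.Pf720nn (CvL2 PolG pS)

section gen

variable {κ X : Type} [Fintype κ] [DecidableEq κ] {mX : MeasurableSpace X} {μ : Measure X}

/-- sums of functions of one coordinate -/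
lemma sum_box_one {R : Type} [CommSemiring R] (l : κ) (M : κ → ℕ) (F : ℕ → R) :
    ∑ m ∈ box M, F (m l) = (∏ l' ∈ univ.erase l, (M l' : R)) * ∑ n ∈ range (M l), F n := by
  have h1 : ∀ m : κ → ℕ, F (m l) = ∏ l', if l' = l then F (m l') else 1 := fun m => by
    rw [Finset.prod_ite_eq' univ l fun l' => F (m l')]
    simp
  have h2 : ∑ m ∈ box M, F (m l) = ∏ l', ∑ n ∈ range (M l'), if l' = l then F n else 1 := by
    rw [Finset.prod_univ_sum]
    exact Finset.sum_congr rfl fun m _ => h1 m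
  rw [h2, ← Finset.mul_prod_erase univ _ (Finset.mem_univ l), mul_comm]
  congr 1
  · refine Finset.prod_congr rfl fun l' hl' => ?_
    simp [Finset.ne_of_mem_erase hl']
  · simp

/-- the maximal inequality for a sequence of maps, as a function of one coordinate -/
theorem one_max (l : κ) {V : ℕ → X → X}
    (hV : ∃ C : ℝ≥0, ∀ f : X → ℝ≥0∞, Measurable f →
      ∫⁻ x, (⨆ M : ℕ, ((M : ℝ≥0∞))⁻¹ * ∑ n ∈ range M, f (V n x)) ^ 2 ∂μ ≤
        C * ∫⁻ x, (f x) ^ 2 ∂μ) : MaxBd μ fun (m : κ → ℕ) => V (m l) := by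
  obtain ⟨C, hC⟩ := hV
  refine ⟨C, ENNReal.coe_ne_top, fun g hg => ?_⟩
  refine le_trans (lintegral_mono fun x => ?_) (hC g hg)
  refine pow_le_pow_left' ?_ 2
  refine iSup_le fun M => ?_
  refine le_trans (le_of_eq ?_) (le_iSup _ (M l + 1))
  rw [boxs_univ, sum_box_one l (fun l => M l + 1) fun n => g (V n x), ← mul_assoc]
  congr 1
  rw [← Finset.mul_prod_erase univ _ (Finset.mem_univ l)]
  have e : ∏ l' ∈ univ.erase l, (((M l' + 1 : ℕ) : ℝ≥0∞)) =
      ∏ l' ∈ univ.erase l, ((M l' : ℝ≥0∞) + 1) :=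
    Finset.prod_congr rfl fun l' _ => by push_cast; rfl
  have h0 : (∏ l' ∈ univ.erase l, ((M l' : ℝ≥0∞) + 1)) ≠ 0 :=
    Finset.prod_ne_zero_iff.2 fun l _ => by simp
  have ht : (∏ l' ∈ univ.erase l, ((M l' : ℝ≥0∞) + 1)) ≠ ⊤ :=
    ENNReal.prod_ne_top fun l _ => by finiteness
  rw [e, ENNReal.mul_inv (Or.inl (by simp)) (Or.inl (by finiteness)), mul_assoc,
    ENNReal.inv_mul_cancel h0 ht, mul_one]
  push_cast
  rfl

/-- convergence for a sequence of maps, as a function of one coordinate -/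
theorem one_cv (l : κ) {V : ℕ → X → X}
    (hV : ∀ φ : X → ℝ, MemLp φ 2 μ → ∀ᵐ x ∂μ, ∃ a : ℝ, Tendsto (fun M : ℕ => ((M : ℝ))⁻¹ *
      ∑ n ∈ range M, φ (V n x)) atTop (𝓝 a)) : CvL2 μ fun (m : κ → ℕ) => V (m l) := by
  intro φ hφ
  filter_upwards [hV φ hφ] with x hx
  obtain ⟨a, ha⟩ := hx
  refine ⟨a, ?_⟩
  have h1 : Tendsto (fun M : κ → ℕ => M l) atTop atTop := tendsto_atTop.2 fun b =>
    (eventually_ge b).mono fun M hM => hM l
  refine (ha.comp h1).congr' ?_
  filter_upwards [eventually_pos] with M hM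
  show ((M l : ℝ))⁻¹ * ∑ n ∈ range (M l), φ (V n x) = avg M fun m => φ (V (m l) x)
  unfold avg
  rw [sum_box_one l M fun n => φ (V n x), ← mul_assoc]
  congr 1
  have h0 : (∏ l' ∈ univ.erase l, (M l' : ℝ)) ≠ 0 :=
    Finset.prod_ne_zero_iff.2 fun l' _ => by exact_mod_cast (hM l').ne'
  rw [← Finset.mul_prod_erase univ _ (Finset.mem_univ l), mul_inv, mul_assoc,
    inv_mul_cancel₀ h0, mul_one]

lemma const_max (U : X → X) (hU : MeasurePreserving U μ μ) :
    MaxBd μ fun (_ : κ → ℕ) => U := by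
  refine ⟨1, ENNReal.one_ne_top, fun g hg => ?_⟩
  rw [one_mul, ← hU.lintegral_comp (hg.pow_const 2)]
  gcongr with x
  refine iSup_le fun M => ?_
  rw [boxs_univ, Finset.sum_const, nsmul_eq_mul, card_box]
  push_cast
  rw [← mul_assoc, ENNReal.inv_mul_cancel, one_mul]
  · exact Finset.prod_ne_zero_iff.2 fun l _ => by simp
  · exact ENNReal.prod_ne_top fun l _ => by finiteness

lemma const_cv (U : X → X) : CvL2 μ fun (_ : κ → ℕ) => U := fun φ _ =>
  Eventually.of_forall fun x => Cvg.const (φ (U x))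

end gen

variable {X : Type} {mX : MeasurableSpace X} {μ : Measure X} [IsProbabilityMeasure μ] {d : ℕ}
  (T : Fin d → Equiv.Perm X)

/-- nilpotent blocks in one variable -/
theorem pS_one (hT : ∀ i, Measurable (T i) ∧ Measurable (T i).symm ∧ MeasurePreserving (T i) μ μ)
    (hG : Group.IsNilpotent (Subgroup.closure (Set.range T))) {k : ℕ}
    (P : Fin d → MvPolynomial (Fin k) ℤ)
    (hP : ∀ i i', ∀ l ∈ (P i).vars, ∀ l' ∈ (P i').vars, l = l') :
    MaxBd μ (pS T P) ∧ CvL2 μ (pS T P) := by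
  by_cases h0 : ∃ i, (P i).vars.Nonempty
  · obtain ⟨i, l, hl⟩ := h0
    have hw : PolG fun v : Fin 1 → ℕ => ww T P fun _ => v 0 :=
      (polG_ww T P).comp0 (fun v _ => v 0) (fun _ _ => rfl)
    obtain ⟨h1, C, h2⟩ := words T hT hG hw
    obtain ⟨V, hV⟩ : ∃ V : ℕ → X → X, ∀ n, V n = pS T P fun _ => n := ⟨_, fun _ => rfl⟩
    have e : pS T P = fun m => V (m l) := by
      funext m
      rw [hV]
      exact Pool.Agent.Lib.Pf720nn.pS_congr T P fun i' l' hl' => by rw [hP i' i l' hl' l hl]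
    have e1 : ∀ (R : Type) [CommSemiring R] (F : X → R) (M : ℕ) (x : X),
        ∑ v ∈ Fintype.piFinset (fun _ : Fin 1 => range M),
          F (((ww T P fun _ => v 0 : Subgroup.closure (Set.range T)) : Equiv.Perm X) x) =
        ∑ n ∈ range M, F (V n x) := by
      intro R _ F M x
      have := sum_box_one (0 : Fin 1) (fun _ => M) fun n => F (V n x)
      simp only [coe_ww, ← hV]
      refine this.trans ?_
      simp
    rw [e]
    constructor
    · refine one_max l ⟨C, fun f hf => ?_⟩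
      refine le_trans (le_of_eq (lintegral_congr fun x => ?_)) (h2 f hf)
      congr 1
      refine iSup_congr fun M => ?_
      rw [pow_one, e1]
    · refine one_cv l fun φ hφ => ?_
      filter_upwards [h1 (fun x => (φ x : ℂ)) hφ.ofReal] with x hx
      obtain ⟨a, ha⟩ := hx
      refine ⟨a.re, ?_⟩
      refine ((Complex.continuous_re.tendsto a).comp ha).congr fun M => ?_
      simp only [Function.comp]
      rw [pow_one, e1 ℂ (fun x => (φ x : ℂ)) M x]
      rw [← Complex.ofReal_natCast, ← Complex.ofReal_sum, ← Complex.ofReal_inv,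
        ← Complex.ofReal_mul, Complex.ofReal_re]
  · have e : pS T P = fun _ => pS T P 0 := by
      funext m
      exact Pool.Agent.Lib.Pf720nn.pS_congr T P fun i l hl => absurd ⟨i, l, hl⟩ h0
    rw [e]
    exact ⟨const_max _ (Pool.Agent.Lib.Pf720nn.pS_mp T hT P 0), const_cv _⟩

end Pool.Agent.Lib.Npz
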