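import Pool.Agent.Lib.Npz.SepN
import Pool.Agent.Lib.Pf720nk.Final

/-!
# The reduction to zero entropy, with the pointwise ergodic theorem for nilpotent groups
-/

set_option autoImplicit false
set_option linter.unusedSectionVars false

open Finset MeasureTheory Filter Topology
open scoped ENNReal NNReal

namespace Pool.Agent.Lib.Npz

open Pool.Agent.Lib.Pf720ae
open Pool.Agent.Lib.Pf720nn (CvL2 PolG pS SubC LinC Sep)
open Pool.Agent.Lib.Pf720np (ZeroEnt joinEntropy gw gens pact pact_gw pact_mul pact_mp)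
open Pool.Agent.Lib.Pf720pm (PolC RenC polC_bot)
open Pool.Agent.Lib.Pf720zr (MPT ForZero)
open Pool.Agent.Lib.Pf720nk (PolN zn_iff)

section alg

variable {X : Type} {d k : ℕ} (T : Fin d → Equiv.Perm X)

/-- consecutive blocks with disjoint sets of variables; in each block either the maps commute, or
the polynomials depend on at most one common variable -/
def SepG (P : Fin d → MvPolynomial (Fin k) ℤ) : Prop :=
  ∃ β : Fin d → ℕ, Monotone β ∧ (∀ i i', β i ≠ β i' → Disjoint (P i).vars (P i').vars) ∧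
    ∀ b, (∀ i i', β i = b → β i' = b → P i ≠ 0 → P i' ≠ 0 → T i * T i' = T i' * T i) ∨
      (∀ i i', β i = b → β i' = b → ∀ l ∈ (P i).vars, ∀ l' ∈ (P i').vars, l = l')

variable {T}

lemma SepG.sepN (hG : Group.IsNilpotent (Subgroup.closure (Set.range T)))
    {P : Fin d → MvPolynomial (Fin k) ℤ} (h : SepG T P) : SepN T P := by
  obtain ⟨β, hβ, hdis, hb⟩ := h
  refine ⟨β, hβ, hdis, fun b => (hb b).imp_right fun h => ⟨?_, h⟩⟩
  refine nilpotent_of_le ?_ hG
  rw [Subgroup.closure_le]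
  rintro _ ⟨i, _, _, rfl⟩
  exact Subgroup.subset_closure ⟨i, rfl⟩

lemma sepG_of_sep {P : Fin d → MvPolynomial (Fin k) ℤ} (h : Sep T P) : SepG T P := by
  obtain ⟨β, hβ, hs⟩ := h
  refine ⟨β, hβ, fun i i' hne => ?_, fun b => Or.inl fun i i' hi hi' h0 h0' =>
    (hs i i' h0 h0').1 (hi.trans hi'.symm)⟩
  by_cases h0 : P i = 0
  · rw [h0, MvPolynomial.vars_0]
    exact Finset.disjoint_empty_left _
  · by_cases h0' : P i' = 0
    · rw [h0', MvPolynomial.vars_0]
      exact Finset.disjoint_empty_right _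
    · exact (hs i i' h0 h0').2 hne

lemma sepG_one (P : Fin d → MvPolynomial (Fin 1) ℤ) : SepG T P :=
  ⟨fun _ => 0, fun _ _ _ => le_rfl, fun _ _ h => absurd rfl h,
    fun _ => Or.inr fun _ _ _ _ l _ l' _ => Subsingleton.elim l l'⟩

/-- the class of the separated tuples is closed under renaming -/
lemma renC_sepG : RenC (fun _ => {P : Fin d → MvPolynomial (Fin _) ℤ | SepG T P}) := by
  classical
  rintro k k' σ hσ P ⟨β, hβ, hdis, hb⟩
  have h0 : ∀ i, MvPolynomial.rename σ (P i) ≠ 0 → P i ≠ 0 := by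
    intro i hi h
    rw [h, map_zero] at hi
    exact hi rfl
  refine ⟨β, hβ, fun i i' hne => ?_, fun b => ?_⟩
  · refine Finset.disjoint_of_subset_left (MvPolynomial.vars_rename σ (P i))
      (Finset.disjoint_of_subset_right (MvPolynomial.vars_rename σ (P i')) ?_)
    exact (Finset.disjoint_image hσ).2 (hdis i i' hne)
  · rcases hb b with h | h
    · exact Or.inl fun i i' hi hi' hi0 hi0' => h i i' hi hi' (h0 i hi0) (h0 i' hi0')
    · refine Or.inr fun i i' hi hi' l hl l' hl' => ?_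
      obtain ⟨a, ha, rfl⟩ := Finset.mem_image.1 (MvPolynomial.vars_rename σ (P i) hl)
      obtain ⟨a', ha', rfl⟩ := Finset.mem_image.1 (MvPolynomial.vars_rename σ (P i') hl')
      rw [h i i' hi hi' a ha a' ha']

/-- the class of the separated tuples is closed under substitutions -/
lemma subC_sepG : SubC (fun _ => {P : Fin d → MvPolynomial (Fin _) ℤ | SepG T P}) := by
  classical
  rintro k P ⟨β, hβ, hdis, hb⟩ q r hq
  have h0 : ∀ i, MvPolynomial.bind₁ (fun l => MvPolynomial.C (q : ℤ) * MvPolynomial.X l +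
      MvPolynomial.C (r l : ℤ)) (P i) ≠ 0 → P i ≠ 0 := by
    intro i hi h
    rw [h, map_zero] at hi
    exact hi rfl
  have hv : ∀ p : MvPolynomial (Fin k) ℤ, (MvPolynomial.bind₁ (fun l =>
      MvPolynomial.C (q : ℤ) * MvPolynomial.X l + MvPolynomial.C (r l : ℤ)) p).vars ⊆ p.vars := by
    intro p l hl
    have h3 := MvPolynomial.vars_bind₁ (fun l => MvPolynomial.C (q : ℤ) * MvPolynomial.X l +
      MvPolynomial.C (r l : ℤ)) p hl
    obtain ⟨l', hl', hl''⟩ := Finset.mem_biUnion.1 h3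
    have h4 : l ∈ ({l'} : Finset (Fin k)) := by
      have h5 := MvPolynomial.vars_add_subset _ _ hl''
      rcases Finset.mem_union.1 h5 with h6 | h6
      · have h7 := MvPolynomial.vars_mul _ _ h6
        rw [MvPolynomial.vars_C, Finset.empty_union, MvPolynomial.vars_X] at h7
        exact h7
      · rw [MvPolynomial.vars_C] at h6
        exact absurd h6 (Finset.notMem_empty l)
    rw [Finset.mem_singleton] at h4
    rwa [h4]
  refine ⟨β, hβ, fun i i' hne => ?_, fun b => ?_⟩
  · exact Finset.disjoint_of_subset_left (hv _)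
      (Finset.disjoint_of_subset_right (hv _) (hdis i i' hne))
  · rcases hb b with h | h
    · exact Or.inl fun i i' hi hi' hi0 hi0' => h i i' hi hi' (h0 i hi0) (h0 i' hi0')
    · exact Or.inr fun i i' hi hi' l hl l' hl' => h i i' hi hi' l (hv _ hl) l' (hv _ hl')

end alg

variable {X : Type} (𝒩 : MeasurableSpace X) {mX : MeasurableSpace X} {μ : Measure X}
  [IsProbabilityMeasure μ] {d : ℕ} (T : Fin d → Equiv.Perm X)

/-- linear averages of separated tuples converge -/
lemma linC_sepG (hT : MPT μ T) (hG : Group.IsNilpotent (Subgroup.closure (Set.range T))) {k : ℕ}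
    {P : Fin d → MvPolynomial (Fin k) ℤ} (h : SepG T P) : LinC μ T P := fun _ hf =>
  conv_sepN T hT P (h.sepN hG) (hf.mono_exponent le_top)

/-- the reduction to zero entropy -/
theorem red_iff (hT : MPT μ T)
    (hG : Group.IsNilpotent (Subgroup.closure (Set.range T)))
    (h𝒩 : ∀ A : Set X, MeasurableSet A → ZeroEnt μ (pact T) A →
      ∃ B, MeasurableSet[𝒩] B ∧ A =ᵐ[μ] B)
    (K Nf : Set ℕ) (hK : (K = {1} ∧ ∀ a b, b ∈ Nf → a ≤ b → a ∈ Nf) ∨ (K = Set.univ ∧
      Nf = Set.univ)) (h1N : 1 ∈ Nf)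
    (Q : (k : ℕ) → Set (Fin d → MvPolynomial (Fin k) ℤ)) (hQ1 : RenC Q)
    (hQ2 : (∀ g : Subgroup.closure (Set.range T), ∀ n : ℕ, 0 < n → g ^ n = 1 → g = 1) ∨ SubC Q) :
    PolN μ T K Nf Q mX ↔ (∀ k ∈ K, ∀ P ∈ Q k, SepG T P ∨ LinC μ T P ∨
      ForZero T fun _ _ ν S => LinC ν S P) ∧ PolN μ T K Nf Q 𝒩 := by
  rw [zn_iff 𝒩 T hT hG h𝒩 K Nf hK h1N Q hQ1 hQ2]
  refine and_congr_left' (forall₂_congr fun k _ => forall₂_congr fun P _ => ⟨fun h => ?_,
    fun h => ?_⟩)
  · exact h.imp_left sepG_of_sep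
  · rcases h with h | h
    · exact Or.inr (Or.inl (linC_sepG T hT hG h))
    · exact Or.inr h

/-- completely positive entropy -/
theorem red_cpe (hT : MPT μ T) (hG : Group.IsNilpotent (Subgroup.closure (Set.range T)))
    (h : ∀ A : Set X, MeasurableSet A → ZeroEnt μ (pact T) A → μ A = 0 ∨ μ A = 1) :
    PolN μ T Set.univ Set.univ (fun _ => {P | SepG T P}) mX := by
  rw [red_iff ⊥ T hT hG (fun A hA hA0 => ?_) Set.univ Set.univ (Or.inr ⟨rfl, rfl⟩)
    (Set.mem_univ 1) _ renC_sepG (Or.inr subC_sepG)]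
  · exact ⟨fun k _ P hP => Or.inl hP, fun k hk n _ => polC_bot T hT Set.univ
      (fun _ => {P : Fin d → MvPolynomial (Fin _) ℤ | SepG T P}) k hk n⟩
  · rcases h A hA hA0 with h0 | h1
    · exact ⟨∅, @MeasurableSet.empty X ⊥, ae_eq_empty.2 h0⟩
    · refine ⟨Set.univ, @MeasurableSet.univ X ⊥, ae_eq_univ.2 ?_⟩
      rw [prob_compl_eq_zero_iff hA]
      exact h1

end Pool.Agent.Lib.Npz
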